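import Mathlib
import Pool.Agent.KS6_47.Zof.ARG
import Pool.Agent.KS6_47.Zof.MONO
import Pool.Agent.KS6_47.Zof.CURVE
import Pool.Agent.KS6_47.Zof.GAPI
import Pool.Agent.KS6_47.Zof.GAP
import Pool.Agent.KS6_47.Zof.GAPLB
import Pool.Agent.KS6_47.Zof.ZINJ
import Pool.Agent.KS6_47.Zof.PF
import Pool.Agent.KS6_47.Zof.PFZ
import Pool.Agent.KS6_47.Zof.EST
import Pool.Agent.KS6_47.Zof.ESTZ
import Pool.Agent.KS6_47.Zof.LOW
import Pool.Agent.KS6_47.Zof.TYPE1
import Pool.Agent.KS6_47.Zof.LCA
import Pool.Agent.KS6_47.Zof.LIMB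
import Pool.Agent.KS6_47.Zof.LCB
import Pool.Agent.KS6_47.Zof.LIM1
import Pool.Agent.KS6_47.Zof.LC1
import Pool.Agent.KS6_47.Zof.LIMM
import Pool.Agent.KS6_47.Zof.LCM
import Pool.Agent.KS6_47.Zof.LIM2
import Pool.Agent.KS6_47.Zof.LC2
import Pool.Agent.KS6_47.Zof.LIM0
import Pool.Agent.KS6_47.Zof.LC0
import Pool.Agent.KS6_47.Zof.LIFT
import Pool.Agent.KS6_47.Zof.COUNT
import Pool.Agent.KS6_47.Zof.GLOB
import Pool.Agent.KS6_47.Zof.LOCAL
import Pool.Agent.KS6_47.Zof.DEG
import Pool.Agent.KS6_47.Zof.PCONT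
import Pool.Agent.KS6_47.Zof.RED
import Pool.Agent.KS6_47.Zof.N11
import Pool.Agent.KS6_47.Zof.ROOT
import Pool.Agent.KS6_47.Zof.DAT
import Pool.Agent.KS6_47.Zof.POS
import Pool.Agent.KS6_47.Zof.FIN
import Pool.Agent.KS6_47.Zof.ConstCase

/-!
# Zeros of the coefficients of `N(t,z) / (Q(t) + z t^r)` outside the positive half line

An exact criterion, for arbitrary `N(t,z)` (of any degree in `t`) and every admissible `Q`
(constant or not): the number of zeros outside `(0,∞)` of the nonzero coefficients `P_m` is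
bounded in `m` if and only if `Q` is not constant, or `r = 0`, or the denominator divides `N`.
-/

set_option autoImplicit false

namespace Pool.Agent.Results.MP_4d57dd_an.ExactCriterion

open Polynomial

/-- `P_m(z)`, the coefficient of `t^m` of the power series (in `t`, over the field of rational
functions of `z`) of `N(t,z) / (Q(t) + z t^r)`. The polynomial `N` is written as a polynomial in
`t` whose coefficients are polynomials in `z`. -/
noncomputable def coeffP (Q : ℝ[X]) (r : ℕ) (N : ℝ[X][X]) (m : ℕ) : RatFunc ℝ :=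
  PowerSeries.coeff m
    (((N.map (algebraMap ℝ[X] (RatFunc ℝ)) : (RatFunc ℝ)[X]) : PowerSeries (RatFunc ℝ)) *
      (((Q.map (algebraMap ℝ (RatFunc ℝ)) + C RatFunc.X * X ^ r : (RatFunc ℝ)[X])) :
        PowerSeries (RatFunc ℝ))⁻¹)

/-- The number of zeros in `ℂ` outside `(0,∞)`, counted with multiplicity, of a rational function
of `z` (the zeros of its numerator in lowest terms). -/
noncomputable def exceptionalZeros (f : RatFunc ℝ) : ℕ :=
  ((f.num.map (algebraMap ℝ ℂ)).roots.filter (fun w => ¬ (w.im = 0 ∧ 0 < w.re))).card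

/-- The standing hypothesis on `Q`: `Q(0) > 0` and all complex zeros of `Q` are positive reals. -/
def Admissible (Q : ℝ[X]) : Prop :=
  0 < Q.eval 0 ∧ ∀ w : ℂ, (Q.map (algebraMap ℝ ℂ)).IsRoot w → w.im = 0 ∧ 0 < w.re

/-- The denominator `Q(t) + z t^r` as a polynomial in `t` with coefficients in `ℝ[z]`. -/
noncomputable def denominator (Q : ℝ[X]) (r : ℕ) : ℝ[X][X] :=
  Q.map (C : ℝ →+* ℝ[X]) + C X * X ^ r

/-- The property asked for in Q1: there is a constant `K` such that for every `m` with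
`P_m ≠ 0` the function `P_m` has fewer than `K` zeros outside `(0,∞)`. -/
def Bounded (Q : ℝ[X]) (r : ℕ) (N : ℝ[X][X]) : Prop :=
  ∃ K : ℕ, ∀ m : ℕ, coeffP Q r N m ≠ 0 → exceptionalZeros (coeffP Q r N m) < K

theorem nonconst (Q : ℝ[X]) (r : ℕ) (N : ℝ[X][X]) (hA : Admissible Q) (hQ : 0 < Q.natDegree) :
    Bounded Q r N := by
  open Pool.Agent.KS6_47.Zof in
  have hG : StmGAP := mGAP mARG mGAPI
  have hGL : StmGAPLB := mGAPLB hG
  have hz : StmZINJ := mZINJ mARG hG
  have hT : StmTYPE1 := mTYPE1 mLOW hz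
  have hPOS : StmPOS := mPOS (mCURVE mMONO) hz (mEST mPF hz) (mESTZ mPFZ hz) (mLCA hz hT)
    (mLCB mARG hG hT (mLIMB mMONO)) (mLCM mARG hGL hz mLOW (mLIMM mMONO))
    (mLC1 mARG hG hT (mLIM1 mMONO)) (mLC2 mARG hGL hz (mLIM2 mMONO))
    (mLC0 mARG hGL hz (mLIM0 mMONO)) (mLOCAL mLIFT mCOUNT mPCONT hz) mGLOB
  exact mFIN mRED mDEG mN11 mROOT mDAT hPOS Q r N hA.1 hQ
    (fun w hw => hA.2 w (isRoot_of_mem_roots hw))

theorem criterion (Q : ℝ[X]) (r : ℕ) (N : ℝ[X][X]) (hA : Admissible Q) :
    Bounded Q r N ↔ (0 < Q.natDegree ∨ r = 0 ∨ denominator Q r ∣ N) := by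
  rcases Nat.eq_zero_or_pos Q.natDegree with h0 | h0
  · have hQc : Q = C (Q.coeff 0) := eq_C_of_natDegree_eq_zero h0
    have hc : 0 < Q.coeff 0 := by
      rw [Polynomial.coeff_zero_eq_eval_zero]
      exact hA.1
    have h := Pool.Agent.KS6_47.ZofC.const_criterion (Q.coeff 0) hc r N
    rw [← hQc] at h
    rw [h0]
    simp only [lt_irrefl, false_or]
    exact h
  · exact ⟨fun _ => Or.inl h0, fun _ => nonconst Q r N hA h0⟩

/-- **Exact criterion for the boundedness of the number of exceptional zeros.**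

(1) For every admissible `Q`, every `r ≥ 0` and every real polynomial `N(t,z)` (of arbitrary
degree in `t`), the number of zeros of `P_m` outside `(0,∞)` is bounded over all `m` with
`P_m ≠ 0` if and only if `Q` is not constant, or `r = 0`, or `Q(t) + z t^r` divides `N(t,z)`.

(2) Under the degree restriction of the problem, `deg_t N < max (deg Q) r`, and for `N ≠ 0`, the
number is bounded if and only if `Q` is not constant.

(3) When it is not bounded, infinitely many `P_m` are nonzero and the number tends to infinity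
linearly along all of them: `P_m` has at least `K` zeros outside `(0,∞)` whenever `P_m ≠ 0` and
`m ≥ deg_t N + r K`. -/
theorem result :
    (∀ (Q : ℝ[X]) (r : ℕ) (N : ℝ[X][X]), Admissible Q →
      (Bounded Q r N ↔ (0 < Q.natDegree ∨ r = 0 ∨ denominator Q r ∣ N))) ∧
    (∀ (Q : ℝ[X]) (r : ℕ) (N : ℝ[X][X]), Admissible Q → N ≠ 0 →
      N.natDegree < max Q.natDegree r → (Bounded Q r N ↔ 0 < Q.natDegree)) ∧
    (∀ (Q : ℝ[X]) (r : ℕ) (N : ℝ[X][X]), Admissible Q → ¬ Bounded Q r N →
      (∀ M : ℕ, ∃ m : ℕ, M ≤ m ∧ coeffP Q r N m ≠ 0) ∧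
      ∀ m K : ℕ, coeffP Q r N m ≠ 0 → N.natDegree + r * K ≤ m →
        K ≤ exceptionalZeros (coeffP Q r N m)) := by
  refine ⟨criterion, fun Q r N hA hN hd => ?_, fun Q r N hA hB => ?_⟩
  · rw [criterion Q r N hA]
    constructor
    · rintro (h | h | h)
      · exact h
      · subst h
        simpa using lt_of_le_of_lt (Nat.zero_le _) hd
      · by_contra h0
        have h0' : Q.natDegree = 0 := by omega
        have hr : N.natDegree < r := by
          rw [h0'] at hd
          simpa using hd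
        have hQc : Q = C (Q.coeff 0) := eq_C_of_natDegree_eq_zero h0'
        have hle := Polynomial.natDegree_le_of_dvd h hN
        have hdeg : (denominator Q r).natDegree = r := by
          unfold denominator
          rw [hQc, Polynomial.map_C]
          apply Polynomial.natDegree_eq_of_degree_eq_some
          rw [Polynomial.degree_add_eq_right_of_degree_lt]
          · rw [Polynomial.degree_C_mul_X_pow r Polynomial.X_ne_zero]
          · rw [Polynomial.degree_C_mul_X_pow r Polynomial.X_ne_zero]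
            refine lt_of_le_of_lt Polynomial.degree_C_le ?_
            exact_mod_cast (by omega : 0 < r)
        omega
    · exact Or.inl
  · rw [criterion Q r N hA] at hB
    push Not at hB
    obtain ⟨h1, h2, h3⟩ := hB
    have h0 : Q.natDegree = 0 := by omega
    have hr : 0 < r := by omega
    have hQc : Q = C (Q.coeff 0) := eq_C_of_natDegree_eq_zero h0
    have hc : 0 < Q.coeff 0 := by
      rw [Polynomial.coeff_zero_eq_eval_zero]
      exact hA.1
    have hI := Pool.Agent.KS6_47.ZofC.const_inf (Q.coeff 0) hc r hr N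
    have hM := Pool.Agent.KS6_47.ZofC.const_many (Q.coeff 0) hc r hr N
    rw [← hQc] at hI hM
    exact ⟨fun M => hI h3 M, fun m K hne hm => hM K m hm hne⟩

end Pool.Agent.Results.MP_4d57dd_an.ExactCriterion
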